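import Pool.Agent.H39.Newt4.Stmts

/-! # Project NEWTON4, module LCI: the comparison of coefficients at an integral point -/

set_option autoImplicit false

namespace Pool.Newt4

open MvPolynomial Pool.Agent.H39.MonoR Pool.Agent.H75.Mono Pool.Newt Pool.Newt2 Pool.Newt3

section LCI

variable {σ I : Type} [Fintype σ] [Fintype I] {k : Type} [Field k]

omit [Field k] in
theorem LCI_ifac_neg {y : I → ℤ} (h : ¬ ∀ i, 0 ≤ y i) : ifac y = 0 := by
  unfold ifac
  rw [if_neg h]

/-- multinomial coefficients -/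
theorem LCI_multi [CharZero k] (t' : I → ℕ) (m : ℕ) (h : ∑ i, t' i = m) :
    ((Nat.multinomial Finset.univ t' : ℕ) : k) =
      (m.factorial : k) * ((ifac (fun i => (t' i : ℤ)) : ℚ) : k) := by
  unfold ifac
  rw [if_pos (fun i => Int.natCast_nonneg _)]
  have h1 := Nat.multinomial_spec Finset.univ t'
  rw [h] at h1
  have h2 : (∏ i, ((t' i).factorial : k)) ≠ 0 :=
    Finset.prod_ne_zero_iff.2 fun i _ => Nat.cast_ne_zero.2 (Nat.factorial_ne_zero _)
  rw [← h1]
  push_cast
  simp only [Int.toNat_natCast]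
  rw [mul_assoc, mul_comm, mul_assoc, inv_mul_cancel₀ h2, mul_one]

/-- a sum over the tuples `t'` as a sum over the shifts `t' - t` -/
theorem LCI_shift [DecidableEq I] (t : I → ℤ) (s : ℤ) (m : ℕ) (hm : ∑ i, t i + s = m)
    (P : (I → ℕ) → Prop) [DecidablePred P] (Q : (I → ℤ) → Prop)
    (hPQ : ∀ t' : I → ℕ, P t' ↔ Q (fun i => (t' i : ℤ) - t i)) (D : Finset (I → ℤ))
    (hD : ∀ δ ∈ D, ∑ i, δ i = s ∧ Q δ)
    (hD2 : ∀ δ : I → ℤ, ∑ i, δ i = s → Q δ → (∀ i, 0 ≤ t i + δ i) → δ ∈ D) (F : (I → ℤ) → k)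
    (hF : ∀ δ, ¬ (∀ i, 0 ≤ t i + δ i) → F δ = 0) :
    ∑ t' ∈ (Finset.piAntidiag (Finset.univ : Finset I) m).filter P,
      F (fun i => (t' i : ℤ) - t i) = ∑ δ ∈ D, F δ := by
  classical
  have e1 : ∑ δ ∈ D, F δ = ∑ δ ∈ D.filter (fun δ => ∀ i, 0 ≤ t i + δ i), F δ := by
    refine (Finset.sum_filter_of_ne fun δ _ h => ?_).symm
    by_contra hc
    exact h (hF δ hc)
  rw [e1]
  refine Finset.sum_nbij' (fun t' i => (t' i : ℤ) - t i) (fun δ i => (t i + δ i).toNat)
    ?_ ?_ ?_ ?_ ?_
  · intro t' ht'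
    rw [Finset.mem_filter, Finset.mem_piAntidiag] at ht'
    obtain ⟨⟨h1, -⟩, h2⟩ := ht'
    have h3 : ∀ i, 0 ≤ t i + ((t' i : ℤ) - t i) := fun i => by omega
    rw [Finset.mem_filter]
    refine ⟨hD2 _ ?_ ((hPQ t').1 h2) h3, h3⟩
    rw [Finset.sum_sub_distrib, ← Nat.cast_sum, h1]
    omega
  · intro δ hδ
    rw [Finset.mem_filter] at hδ
    obtain ⟨h1, h2⟩ := hδ
    have h4 : (fun i => (((t i + δ i).toNat : ℕ) : ℤ) - t i) = δ := by
      funext i
      rw [Int.toNat_of_nonneg (h2 i)]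
      ring
    rw [Finset.mem_filter, Finset.mem_piAntidiag]
    refine ⟨⟨?_, fun i _ => Finset.mem_univ i⟩, ?_⟩
    · have h5 : ((∑ i, (t i + δ i).toNat : ℕ) : ℤ) = m := by
        rw [Nat.cast_sum, Finset.sum_congr rfl fun i _ => Int.toNat_of_nonneg (h2 i),
          Finset.sum_add_distrib, (hD δ h1).1, hm]
      exact_mod_cast h5
    · rw [hPQ, h4]
      exact (hD δ h1).2
  · intro t' _
    funext i
    show (t i + ((t' i : ℤ) - t i)).toNat = t' i
    rw [show t i + ((t' i : ℤ) - t i) = (t' i : ℤ) by ring, Int.toNat_natCast]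
  · intro δ hδ
    rw [Finset.mem_filter] at hδ
    funext i
    show (((t i + δ i).toNat : ℕ) : ℤ) - t i = δ i
    rw [Int.toNat_of_nonneg (hδ.2 i)]
    ring
  · intro t' _
    rfl

/-- the reflected product -/
theorem LCI_refl (x : k) (D : ℕ) :
    ∏ j ∈ Finset.range D, (x + (D : k) - (j : k)) = ∏ j ∈ Finset.range D, (x + ((j : k) + 1)) := by
  rw [← Finset.prod_range_reflect]
  refine Finset.prod_congr rfl fun j hj => ?_
  have h := Finset.mem_range.1 hj
  have h1 : ((D - 1 - j : ℕ) : k) + ((j : k) + 1) = (D : k) := by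
    have h2 : (D - 1 - j) + (j + 1) = D := by omega
    rw [← Nat.cast_add_one, ← Nat.cast_add, h2]
  rw [← h1]
  ring

/-- the descending products are `dd` -/
theorem LCI_desc [CharZero k] (a : I → σ → ℕ) (t δ : I → ℤ) :
    eval (fun l => ∑ i, ((t i : k) + (δ i : k)) * (a i l : k))
      (desc k (fun l => -∑ i, δ i * (a i l : ℤ))) =
      ((eval (fun i => (t i : ℚ)) (dd a δ) : ℚ) : k) := by
  unfold desc dd
  rw [map_prod, map_prod, Rat.cast_prod]
  refine Finset.prod_congr rfl fun l _ => ?_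
  rw [map_prod, map_prod, Rat.cast_prod, neg_neg]
  generalize hD : (∑ i, δ i * (a i l : ℤ)).toNat = D
  rcases Nat.eq_zero_or_pos D with rfl | hpos
  · simp
  · have h1 : (∑ i, δ i * (a i l : ℤ)) = (D : ℤ) := by omega
    have h2 : (∑ i, (δ i : k) * (a i l : k)) = (D : k) := by
      have := congrArg (fun z : ℤ => (z : k)) h1
      push_cast at this
      exact this
    have h3 : (∑ i, ((t i : k) + (δ i : k)) * (a i l : k)) =
        (∑ i, (t i : k) * (a i l : k)) + (D : k) := by
      rw [← h2, ← Finset.sum_add_distrib]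
      exact Finset.sum_congr rfl fun i _ => by ring
    have h4 := LCI_refl (∑ i, (t i : k) * (a i l : k)) D
    have e1 : ∀ j ∈ Finset.range D, eval (fun l => ∑ i, ((t i : k) + (δ i : k)) * (a i l : k))
        (X l - C (j : k) : MvPolynomial σ k) =
        (∑ i, (t i : k) * (a i l : k)) + (D : k) - (j : k) := fun j _ => by
      rw [map_sub, eval_X, eval_C, h3]
    rw [Finset.prod_congr rfl e1, h4]
    refine Finset.prod_congr rfl fun j _ => ?_
    rw [map_add, map_sum, eval_C]
    push_cast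
    rw [Finset.sum_congr rfl fun i _ => ?_]
    rw [map_mul, eval_C, eval_X]
    push_cast
    ring

/-- `dd` vanishes if an exponent `(A t)_l` is negative and `t + δ ≥ 0` -/
theorem LCI_dd_zero (a : I → σ → ℕ) (t δ : I → ℤ) (l : σ) (hl : ∑ i, t i * (a i l : ℤ) < 0)
    (h : ∀ i, 0 ≤ t i + δ i) : eval (fun i => (t i : ℚ)) (dd a δ) = 0 := by
  unfold dd
  rw [map_prod]
  refine Finset.prod_eq_zero (Finset.mem_univ l) ?_
  rw [map_prod]
  have h1 : 0 ≤ ∑ i, (t i + δ i) * (a i l : ℤ) :=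
    Finset.sum_nonneg fun i _ => mul_nonneg (h i) (Int.natCast_nonneg _)
  have h2 : ∑ i, (t i + δ i) * (a i l : ℤ) =
      ∑ i, t i * (a i l : ℤ) + ∑ i, δ i * (a i l : ℤ) := by
    rw [← Finset.sum_add_distrib]
    exact Finset.sum_congr rfl fun i _ => by ring
  rw [h2] at h1
  obtain ⟨j, hj⟩ : ∃ j : ℕ, (∑ i, t i * (a i l : ℤ)) = -((j : ℤ) + 1) :=
    ⟨(-(∑ i, t i * (a i l : ℤ)) - 1).toNat, by omega⟩
  refine Finset.prod_eq_zero (i := j) (Finset.mem_range.2 (by omega)) ?_
  have h3 : (∑ i, (a i l : ℚ) * (t i : ℚ)) = -((j : ℚ) + 1) := by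
    have := congrArg (fun z : ℤ => (z : ℚ)) hj
    push_cast at this
    rw [← this]
    exact Finset.sum_congr rfl fun i _ => by ring
  rw [map_add, map_sum, eval_C]
  rw [Finset.sum_congr rfl fun i _ => show eval (fun i => (t i : ℚ)) (C (a i l : ℚ) * X i) =
    (a i l : ℚ) * (t i : ℚ) by rw [map_mul, eval_C, eval_X], h3]
  ring

/-- powers of the coefficients -/
theorem LCI_pow (c : I → k) (hc : ∀ i, c i ≠ 0) (t : I → ℤ) (t' : I → ℕ) :
    ∏ i, c i ^ t' i = (∏ i, c i ^ t i) * ∏ i, c i ^ ((t' i : ℤ) - t i) := by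
  rw [← Finset.prod_mul_distrib]
  refine Finset.prod_congr rfl fun i _ => ?_
  rw [← zpow_add₀ (hc i), show t i + ((t' i : ℤ) - t i) = (t' i : ℤ) by ring, zpow_natCast]

end LCI

theorem sLci : SLci := by
  classical
  intro σ I _ _ k _ _ a c hc b Γ r hcof t n ht Dk Dd hDk hDk2 hDd hDd2
  by_cases hneg : ∃ l, ∑ i, t i * (a i l : ℤ) < 0
  · -- a negative exponent: both sides vanish
    obtain ⟨l, hl⟩ := hneg
    have h1 : ∀ κ ∈ Dk, (∏ i, c i ^ κ i) * ((ifac (fun i => t i + κ i) : ℚ) : k) = 0 := by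
      intro κ hκ
      rw [LCI_ifac_neg, Rat.cast_zero, mul_zero]
      intro h
      have h2 : 0 ≤ ∑ i, (t i + κ i) * (a i l : ℤ) :=
        Finset.sum_nonneg fun i _ => mul_nonneg (h i) (Int.natCast_nonneg _)
      have h3 : ∑ i, (t i + κ i) * (a i l : ℤ) =
          ∑ i, t i * (a i l : ℤ) + ∑ i, κ i * (a i l : ℤ) := by
        rw [← Finset.sum_add_distrib]
        exact Finset.sum_congr rfl fun i _ => by ring
      have h4 := (hDk κ hκ).2 l
      omega
    have h5 : ∀ δ ∈ Dd, (∏ i, c i ^ δ i) * ((ifac (fun i => t i + δ i) : ℚ) : k) *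
        (((eval (fun i => (t i : ℚ)) (dd a δ) : ℚ) : k) *
          eval (fun o => Option.elim o (n : k)
            (fun l => ∑ i, ((t i : k) + (δ i : k)) * (a i l : k)))
            (r (fun l => -∑ i, δ i * (a i l : ℤ)))) = 0 := by
      intro δ _
      by_cases h : ∀ i, 0 ≤ t i + δ i
      · rw [LCI_dd_zero a t δ l hl h, Rat.cast_zero, zero_mul, mul_zero]
      · rw [LCI_ifac_neg h, Rat.cast_zero, mul_zero, zero_mul]
    rw [Finset.sum_eq_zero h1, Finset.sum_eq_zero h5, mul_zero, mul_zero]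
  · have hpos : ∀ l, 0 ≤ ∑ i, t i * (a i l : ℤ) := fun l => by
      by_contra h
      exact hneg ⟨l, by omega⟩
    have he : ∀ l, (((∑ i, t i * (a i l : ℤ)).toNat : ℕ) : ℤ) = ∑ i, t i * (a i l : ℤ) :=
      fun l => Int.toNat_of_nonneg (hpos l)
    have hco := hcof n (fun l => (∑ i, t i * (a i l : ℤ)).toNat)
    -- the constant `c^t`
    have hct : (∏ i, c i ^ t i) ≠ 0 := Finset.prod_ne_zero_iff.2 fun i _ => zpow_ne_zero _ (hc i)
    have hAs : ∀ t' : I → ℕ, ∀ l, ∑ i, ((t' i : ℤ) - t i) * (a i l : ℤ) =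
        ∑ i, (t' i : ℤ) * (a i l : ℤ) - ∑ i, t i * (a i l : ℤ) := fun t' l => by
      rw [← Finset.sum_sub_distrib]
      exact Finset.sum_congr rfl fun i _ => by ring
    -- the left side
    have hL : ∑ t' ∈ (Finset.piAntidiag (Finset.univ : Finset I) n).filter
        (fun t' => ∀ l, ∑ i, (t' i : ℤ) * (a i l : ℤ) =
          ((fun l => (∑ i, t i * (a i l : ℤ)).toNat) l : ℕ)),
        (Nat.multinomial Finset.univ t' : k) * ∏ i, c i ^ t' i =
        (n.factorial : k) * (∏ i, c i ^ t i) *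
          ∑ κ ∈ Dk, (∏ i, c i ^ κ i) * ((ifac (fun i => t i + κ i) : ℚ) : k) := by
      have h1 := LCI_shift t 0 n (by rw [ht, add_zero])
        (fun t' => ∀ l, ∑ i, (t' i : ℤ) * (a i l : ℤ) =
          ((fun l => (∑ i, t i * (a i l : ℤ)).toNat) l : ℕ))
        (fun κ => ∀ l, ∑ i, κ i * (a i l : ℤ) = 0) (fun t' => by
          refine forall_congr' fun l => ?_
          show _ = (((∑ i, t i * (a i l : ℤ)).toNat : ℕ) : ℤ) ↔ _
          rw [he l, hAs t' l]
          omega) Dk (fun κ hκ => hDk κ hκ) (fun κ h2 h3 h4 => hDk2 κ ⟨h2, h3⟩ h4)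
        (fun κ => (∏ i, c i ^ κ i) * ((ifac (fun i => t i + κ i) : ℚ) : k)) (fun κ h => by
          show (∏ i, c i ^ κ i) * ((ifac (fun i => t i + κ i) : ℚ) : k) = 0
          rw [LCI_ifac_neg h, Rat.cast_zero, mul_zero])
      rw [← h1, Finset.mul_sum]
      refine Finset.sum_congr rfl fun t' ht' => ?_
      have h5 := (Finset.mem_piAntidiag.1 (Finset.mem_filter.1 ht').1).1
      rw [LCI_multi t' n h5, LCI_pow c hc t t']
      have h6 : (fun i => t i + ((t' i : ℤ) - t i)) = fun i => (t' i : ℤ) := by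
        funext i
        ring
      rw [h6]
      ring
    -- the right side
    have hR : ∑ γ ∈ Γ, ∑ t' ∈ (Finset.piAntidiag (Finset.univ : Finset I) (n + 1)).filter
        (fun t' => ∀ l, (∑ i, (t' i : ℤ) * (a i l : ℤ)) + γ l =
          ((fun l => (∑ i, t i * (a i l : ℤ)).toNat) l : ℕ)),
        (Nat.multinomial Finset.univ t' : k) * (∏ i, c i ^ t' i) *
          (eval (fun l => ∑ i, (t' i : k) * (a i l : k)) (desc k γ) *
            eval (fun o => Option.elim o (n : k) (fun l => ∑ i, (t' i : k) * (a i l : k)))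
              (r γ)) =
        (n.factorial : k) * (∏ i, c i ^ t i) * (((n : k) + 1) *
          ∑ δ ∈ Dd, (∏ i, c i ^ δ i) * ((ifac (fun i => t i + δ i) : ℚ) : k) *
        (((eval (fun i => (t i : ℚ)) (dd a δ) : ℚ) : k) *
          eval (fun o => Option.elim o (n : k)
            (fun l => ∑ i, ((t i : k) + (δ i : k)) * (a i l : k)))
            (r (fun l => -∑ i, δ i * (a i l : ℤ))))) := by
      set F : (I → ℤ) → k := fun δ => (∏ i, c i ^ δ i) *
        ((ifac (fun i => t i + δ i) : ℚ) : k) *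
        (((eval (fun i => (t i : ℚ)) (dd a δ) : ℚ) : k) *
          eval (fun o => Option.elim o (n : k)
            (fun l => ∑ i, ((t i : k) + (δ i : k)) * (a i l : k)))
            (r (fun l => -∑ i, δ i * (a i l : ℤ)))) with hF
      have h1 := LCI_shift t 1 (n + 1) (by rw [ht]; push_cast; ring)
        (fun t' => (fun l => -(∑ i, ((t' i : ℤ) - t i) * (a i l : ℤ))) ∈ Γ)
        (fun δ => (fun l => -∑ i, δ i * (a i l : ℤ)) ∈ Γ) (fun t' => Iff.rfl) Dd
        (fun δ hδ => hDd δ hδ) (fun δ h2 h3 h4 => hDd2 δ h2 h3 h4) F (fun δ h => by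
          show (∏ i, c i ^ δ i) * ((ifac (fun i => t i + δ i) : ℚ) : k) * _ = 0
          rw [LCI_ifac_neg h, Rat.cast_zero, mul_zero, zero_mul])
      rw [← h1, Finset.mul_sum, Finset.mul_sum, Finset.sum_filter]
      have e2 : ∀ γ ∈ Γ, (∑ t' ∈ (Finset.piAntidiag (Finset.univ : Finset I) (n + 1)).filter
          (fun t' => ∀ l, (∑ i, (t' i : ℤ) * (a i l : ℤ)) + γ l =
            ((fun l => (∑ i, t i * (a i l : ℤ)).toNat) l : ℕ)),
          (Nat.multinomial Finset.univ t' : k) * (∏ i, c i ^ t' i) *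
            (eval (fun l => ∑ i, (t' i : k) * (a i l : k)) (desc k γ) *
              eval (fun o => Option.elim o (n : k) (fun l => ∑ i, (t' i : k) * (a i l : k)))
                (r γ))) =
          ∑ t' ∈ Finset.piAntidiag (Finset.univ : Finset I) (n + 1),
            if γ = (fun l => -(∑ i, ((t' i : ℤ) - t i) * (a i l : ℤ))) then
              (n.factorial : k) * (∏ i, c i ^ t i) *
                (((n : k) + 1) * F (fun i => (t' i : ℤ) - t i)) else 0 := by
        intro γ _
        rw [Finset.sum_filter]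
        refine Finset.sum_congr rfl fun t' ht' => ?_
        have hiff : (∀ l, (∑ i, (t' i : ℤ) * (a i l : ℤ)) + γ l =
            ((fun l => (∑ i, t i * (a i l : ℤ)).toNat) l : ℕ)) ↔
            γ = (fun l => -(∑ i, ((t' i : ℤ) - t i) * (a i l : ℤ))) := by
          rw [funext_iff]
          refine forall_congr' fun l => ?_
          show _ = (((∑ i, t i * (a i l : ℤ)).toNat : ℕ) : ℤ) ↔ _
          rw [he l, hAs t' l]
          constructor
          · intro h
            omega
          · intro h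
            omega
        by_cases hγ : γ = (fun l => -(∑ i, ((t' i : ℤ) - t i) * (a i l : ℤ)))
        · rw [if_pos (hiff.2 hγ), if_pos hγ]
          have h5 := (Finset.mem_piAntidiag.1 ht').1
          have h7 : ∀ i, (t i : k) + (((t' i : ℤ) - t i : ℤ) : k) = (t' i : k) := fun i => by
            push_cast
            ring
          have h8 : (fun l => ∑ i, ((t i : k) + (((t' i : ℤ) - t i : ℤ) : k)) * (a i l : k)) =
              (fun l => ∑ i, (t' i : k) * (a i l : k)) := by
            funext l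
            exact Finset.sum_congr rfl fun i _ => by rw [h7 i]
          have h9 := LCI_desc (k := k) a t (fun i => (t' i : ℤ) - t i)
          rw [h8, ← hγ] at h9
          have h6 : (fun i => t i + ((t' i : ℤ) - t i)) = fun i => (t' i : ℤ) := by
            funext i
            ring
          have h10 : F (fun i => (t' i : ℤ) - t i) = (∏ i, c i ^ ((t' i : ℤ) - t i)) *
              ((ifac (fun i => (t' i : ℤ)) : ℚ) : k) *
              (((eval (fun i => (t i : ℚ)) (dd a (fun i => (t' i : ℤ) - t i)) : ℚ) : k) *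
                eval (fun o => Option.elim o (n : k) (fun l => ∑ i, (t' i : k) * (a i l : k)))
                  (r γ)) := by
            rw [← h6, hγ, ← h8]
          rw [h10, ← h9, LCI_multi t' (n + 1) h5, LCI_pow c hc t t', Nat.factorial_succ]
          push_cast
          ring
        · rw [if_neg (fun h => hγ (hiff.1 h)), if_neg hγ]
      rw [Finset.sum_congr rfl e2, Finset.sum_comm]
      refine Finset.sum_congr rfl fun t' _ => ?_
      rw [Finset.sum_ite_eq' Γ]
    rw [hL, hR] at hco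
    have hn : (n.factorial : k) ≠ 0 := Nat.cast_ne_zero.2 (Nat.factorial_ne_zero _)
    refine mul_left_cancel₀ (mul_ne_zero hn hct) ?_
    rw [← hco]
    ring

end Pool.Newt4
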